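import Pool.Agent.BCS.Stmts

/-!
# Squad BCS, row AVI: averages over the torus
-/

set_option autoImplicit false

open scoped ContDiff Topology
open Set MeasureTheory
open Pool.Agent.SecondKind (pd)

namespace Pool.Agent.BCS.H21

variable {m : ℕ}

/-! ### derivatives -/

/-- derivative in the direction `v` of the plane, for functions on `ℂ × ℝ^m` -/
noncomputable def DV (v : ℂ) (H : ℂ × (Fin m → ℝ) → ℝ) (p : ℂ × (Fin m → ℝ)) : ℝ :=
  fderiv ℝ H p (v, 0)

theorem DV_smooth {H : ℂ × (Fin m → ℝ) → ℝ} (hH : ContDiff ℝ ∞ H) (v : ℂ) :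
    ContDiff ℝ ∞ (DV v H) := by
  have h1 : ContDiff ℝ ∞ (fderiv ℝ H) := hH.fderiv_right (by simp)
  exact h1.clm_apply contDiff_const

theorem fd_slice {H : ℂ × (Fin m → ℝ) → ℝ} (hH : ContDiff ℝ ∞ H) (v z : ℂ) (t : Fin m → ℝ) :
    fderiv ℝ (fun z => H (z, t)) z v = DV v H (z, t) := by
  have h1 : HasFDerivAt (fun z : ℂ => (z, t)) (ContinuousLinearMap.inl ℝ ℂ (Fin m → ℝ)) z :=
    hasFDerivAt_prodMk_left z t
  have h2 := ((hH.differentiable (by simp)) (z, t)).hasFDerivAt.comp z h1
  have h3 : (fun z => H (z, t)) = H ∘ fun z => (z, t) := rfl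
  rw [h3, h2.fderiv]
  simp [DV]

theorem slice_cont {H : ℂ × (Fin m → ℝ) → ℝ} (hH : ContDiff ℝ ∞ H) (z : ℂ) :
    Continuous fun t => H (z, t) :=
  hH.continuous.comp (continuous_const.prodMk continuous_id)

theorem pd_smooth {h : (Fin m → ℝ) → ℝ} (hh : ContDiff ℝ ∞ h) (i : Fin m) :
    ContDiff ℝ ∞ (pd i h) := by
  have h1 : ContDiff ℝ ∞ (fderiv ℝ h) := hh.fderiv_right (by simp)
  exact h1.clm_apply contDiff_const

/-- directional derivative in the plane -/
noncomputable def D (v : ℂ) (f : ℂ → ℝ) (z : ℂ) : ℝ := fderiv ℝ f z v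

theorem D_smooth {f : ℂ → ℝ} (hf : ContDiff ℝ ∞ f) (v : ℂ) : ContDiff ℝ ∞ (D v f) := by
  have h1 : ContDiff ℝ ∞ (fderiv ℝ f) := hf.fderiv_right (by simp)
  exact h1.clm_apply contDiff_const

theorem D_lin {u w : ℂ → ℝ} (hu : ContDiff ℝ ∞ u) (hw : ContDiff ℝ ∞ w) (v : ℂ) (c : ℝ) :
    D v (fun z => u z + c * w z) = fun z => D v u z + c * D v w z := by
  funext z
  have h1 := ((hu.differentiable (by simp)) z).hasFDerivAt
  have h2 := ((hw.differentiable (by simp)) z).hasFDerivAt
  have h3 : HasFDerivAt (fun z => u z + c * w z) (fderiv ℝ u z + c • fderiv ℝ w z) z :=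
    h1.add (h2.const_mul c)
  unfold D
  rw [h3.fderiv]
  simp

theorem D_sum {g : Fin m → ℂ → ℝ} (hg : ∀ j, ContDiff ℝ ∞ (g j)) (v : ℂ) :
    D v (fun z => ∑ j, g j z) = fun z => ∑ j, D v (g j) z := by
  funext z
  have h1 : HasFDerivAt (fun z => ∑ j, g j z) (∑ j, fderiv ℝ (g j) z) z :=
    HasFDerivAt.fun_sum fun j _ => ((hg j).differentiable (by simp) z).hasFDerivAt
  unfold D
  rw [h1.fderiv]
  simp

/-! ### the mean -/

/-- the mean with the weight `w` -/
noncomputable def Ev (w g : (Fin m → ℝ) → ℝ) : ℝ := tI (fun t => w t * g t) / tI w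

theorem int_of_cont {f : (Fin m → ℝ) → ℝ} (hf : Continuous f) :
    IntegrableOn f (Icc (0 : Fin m → ℝ) 1) :=
  hf.continuousOn.integrableOn_compact isCompact_Icc

theorem tI_add {f g : (Fin m → ℝ) → ℝ} (hf : Continuous f) (hg : Continuous g) :
    tI (fun t => f t + g t) = tI f + tI g :=
  integral_add (int_of_cont hf) (int_of_cont hg)

theorem tI_mul (c : ℝ) (f : (Fin m → ℝ) → ℝ) : tI (fun t => c * f t) = c * tI f :=
  integral_const_mul c f

theorem tI_nonneg {f : (Fin m → ℝ) → ℝ} (hf : ∀ t, 0 ≤ f t) : 0 ≤ tI f :=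
  setIntegral_nonneg measurableSet_Icc fun t _ => hf t

theorem vol_Icc : volume (Icc (0 : Fin m → ℝ) 1) = 1 := by
  rw [Real.volume_Icc_pi]
  simp

theorem tI_exp_pos {f : (Fin m → ℝ) → ℝ} (hf : Continuous f) :
    0 < tI (fun t => Real.exp (f t)) := by
  have : NeZero (volume.restrict (Icc (0 : Fin m → ℝ) 1)) := by
    refine ⟨fun h => ?_⟩
    have h1 := congrArg (fun μ : Measure (Fin m → ℝ) => μ Set.univ) h
    simp only [Measure.restrict_apply_univ, vol_Icc, Measure.coe_zero, Pi.zero_apply] at h1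
    exact one_ne_zero h1
  exact integral_exp_pos (int_of_cont (Real.continuous_exp.comp hf))

section

variable {w : (Fin m → ℝ) → ℝ} (hw : Continuous w) (hw0 : ∀ t, 0 ≤ w t) (hwp : 0 < tI w)

include hw

theorem Ev_add {f g : (Fin m → ℝ) → ℝ} (hf : Continuous f) (hg : Continuous g) :
    Ev w (fun t => f t + g t) = Ev w f + Ev w g := by
  unfold Ev
  have h1 := tI_add (f := fun t => w t * f t) (g := fun t => w t * g t) (hw.mul hf) (hw.mul hg)
  rw [← add_div, ← h1]
  congr 1
  refine congrArg tI (funext fun t => ?_)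
  ring

omit hw in
theorem Ev_mul (c : ℝ) (f : (Fin m → ℝ) → ℝ) : Ev w (fun t => c * f t) = c * Ev w f := by
  unfold Ev
  rw [← mul_div_assoc, ← tI_mul]
  congr 1
  refine congrArg tI (funext fun t => ?_)
  ring

omit hw in
include hwp in
theorem Ev_const (c : ℝ) : Ev w (fun _ => c) = c := by
  have h := Ev_mul (w := w) c (fun _ => 1)
  have h1 : Ev w (fun _ => 1) = 1 := by
    unfold Ev
    simp only [mul_one]
    exact div_self hwp.ne'
  rw [h1] at h
  simpa using h

omit hw in
include hw0 in
theorem Ev_nonneg {f : (Fin m → ℝ) → ℝ} (hf : ∀ t, 0 ≤ f t) : 0 ≤ Ev w f :=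
  div_nonneg (tI_nonneg fun t => mul_nonneg (hw0 t) (hf t)) (tI_nonneg hw0)

theorem Ev_sum {ι : Type} (s : Finset ι) {f : ι → (Fin m → ℝ) → ℝ} (hf : ∀ i, Continuous (f i)) :
    Ev w (fun t => ∑ i ∈ s, f i t) = ∑ i ∈ s, Ev w (f i) := by
  classical
  induction s using Finset.induction_on with
  | empty => simp [Ev, tI]
  | insert a s ha ih =>
    rw [Finset.sum_insert ha, ← ih, ← Ev_add hw (hf a) (continuous_finsetSum _ fun i _ => hf i)]
    refine congrArg (Ev w) (funext fun t => ?_)
    rw [Finset.sum_insert ha]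

include hw0 hwp in
theorem Ev_var {f : (Fin m → ℝ) → ℝ} (hf : Continuous f) :
    Ev w f ^ 2 ≤ Ev w (fun t => f t ^ 2) := by
  set e := Ev w f with he
  have h1 : 0 ≤ Ev w (fun t => (f t - e) ^ 2) := Ev_nonneg hw0 fun t => sq_nonneg _
  have h2 : Ev w (fun t => (f t - e) ^ 2) = Ev w (fun t => f t ^ 2) + (-(2 * e) * e + e ^ 2) := by
    have h3 : (fun t => (f t - e) ^ 2) = fun t => f t ^ 2 + ((-(2 * e)) * f t + e ^ 2) := by
      funext t
      ring
    rw [h3, Ev_add (f := fun t => f t ^ 2) (g := fun t => (-(2 * e)) * f t + e ^ 2) hw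
        (hf.pow 2) ((continuous_const.mul hf).add continuous_const),
      Ev_add (f := fun t => (-(2 * e)) * f t) (g := fun _ => e ^ 2) hw
        (continuous_const.mul hf) continuous_const, Ev_mul, Ev_const hwp, ← he]
  rw [h2] at h1
  nlinarith

include hwp in
theorem Ev_lin5 (c0 c1 c2 c3 c4 : ℝ) {f1 f2 f3 f4 f5 : (Fin m → ℝ) → ℝ} (h1 : Continuous f1)
    (h2 : Continuous f2) (h3 : Continuous f3) (h4 : Continuous f4) (h5 : Continuous f5) :
    Ev w (fun t => c0 + (c1 * f1 t + (c2 * f2 t + (c3 * f3 t + (c4 * f4 t + f5 t))))) =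
      c0 + (c1 * Ev w f1 + (c2 * Ev w f2 + (c3 * Ev w f3 + (c4 * Ev w f4 + Ev w f5)))) := by
  have k4 : Continuous fun t => c4 * f4 t + f5 t := (continuous_const.mul h4).add h5
  have k3 : Continuous fun t => c3 * f3 t + (c4 * f4 t + f5 t) := (continuous_const.mul h3).add k4
  have k2 : Continuous fun t => c2 * f2 t + (c3 * f3 t + (c4 * f4 t + f5 t)) :=
    (continuous_const.mul h2).add k3
  have k1 : Continuous fun t => c1 * f1 t + (c2 * f2 t + (c3 * f3 t + (c4 * f4 t + f5 t))) :=
    (continuous_const.mul h1).add k2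
  have l1 : Continuous fun t => c1 * f1 t := continuous_const.mul h1
  have l2 : Continuous fun t => c2 * f2 t := continuous_const.mul h2
  have l3 : Continuous fun t => c3 * f3 t := continuous_const.mul h3
  have l4 : Continuous fun t => c4 * f4 t := continuous_const.mul h4
  have l0 : Continuous fun _ : Fin m → ℝ => c0 := continuous_const
  rw [Ev_add hw l0 k1, Ev_const hwp, Ev_add hw l1 k2, Ev_mul, Ev_add hw l2 k3, Ev_mul,
    Ev_add hw l3 k4, Ev_mul, Ev_add hw l4 h5, Ev_mul]

include hwp in
theorem Ev_lin2 (c0 c1 c2 : ℝ) {f1 f2 : (Fin m → ℝ) → ℝ} (h1 : Continuous f1)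
    (h2 : Continuous f2) :
    Ev w (fun t => c0 + (c1 * f1 t + c2 * f2 t)) = c0 + (c1 * Ev w f1 + c2 * Ev w f2) := by
  have l1 : Continuous fun t => c1 * f1 t := continuous_const.mul h1
  have l2 : Continuous fun t => c2 * f2 t := continuous_const.mul h2
  have k1 : Continuous fun t => c1 * f1 t + c2 * f2 t := l1.add l2
  have l0 : Continuous fun _ : Fin m → ℝ => c0 := continuous_const
  rw [Ev_add hw l0 k1, Ev_const hwp, Ev_add hw l1 l2, Ev_mul, Ev_mul]

end

theorem tI_lin2 (c1 c2 : ℝ) {f1 f2 : (Fin m → ℝ) → ℝ} (h1 : Continuous f1)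
    (h2 : Continuous f2) :
    tI (fun t => c1 * f1 t + c2 * f2 t) = c1 * tI f1 + c2 * tI f2 := by
  have l1 : Continuous fun t => c1 * f1 t := continuous_const.mul h1
  have l2 : Continuous fun t => c2 * f2 t := continuous_const.mul h2
  rw [tI_add l1 l2, tI_mul, tI_mul]

theorem sumsq (x β : Fin m → ℝ) (A : ℝ) : ∑ j, (x j + β j * A) ^ 2 =
    ∑ j, x j ^ 2 + 2 * (∑ j, β j * x j) * A + (∑ j, β j ^ 2) * A ^ 2 := by
  rw [Finset.mul_sum, Finset.sum_mul, Finset.sum_mul, ← Finset.sum_add_distrib,
    ← Finset.sum_add_distrib]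
  refine Finset.sum_congr rfl fun j _ => ?_
  ring

theorem sumlin (x β : Fin m → ℝ) (A : ℝ) : ∑ j, (x j + β j * A) = ∑ j, x j + (∑ j, β j) * A := by
  rw [Finset.sum_add_distrib, Finset.sum_mul]

theorem avi (hA : AvdStmt) (hF : FibStmt) : AviStmt := by
  intro m M φ f χ α β q hy hq hqi
  obtain ⟨hsm, hdx, hdy, hlap⟩ := hA m χ q hy.hχ hq.ne
  set H : ℂ × (Fin m → ℝ) → ℝ := fun p => χ p.1 p.2 with hHdef
  have hH : ContDiff ℝ ∞ H := hy.hχ.smooth
  set X := lm q χ with hX
  -- slices
  have hchi : ∀ z, Continuous (χ z) := fun z => slice_cont hH z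
  have hchis : ∀ z, ContDiff ℝ ∞ (χ z) := fun z =>
    hH.comp (contDiff_const.prodMk contDiff_id)
  have hdx1 : ∀ t, (dx fun z => χ z t) = fun z => DV 1 H (z, t) := by
    intro t
    funext z
    exact fd_slice hH 1 z t
  have hdy1 : ∀ t, (dy fun z => χ z t) = fun z => DV Complex.I H (z, t) := by
    intro t
    funext z
    exact fd_slice hH Complex.I z t
  have hdx2 : ∀ z t, dx (dx fun z => χ z t) z = DV 1 (DV 1 H) (z, t) := by
    intro z t
    rw [hdx1]
    exact fd_slice (DV_smooth hH 1) 1 z t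
  have hdy2 : ∀ z t, dy (dy fun z => χ z t) z = DV Complex.I (DV Complex.I H) (z, t) := by
    intro z t
    rw [hdy1]
    exact fd_slice (DV_smooth hH Complex.I) Complex.I z t
  have hAc : ∀ z, Continuous fun t => dx (fun z => χ z t) z := by
    intro z
    have : (fun t => dx (fun z => χ z t) z) = fun t => DV 1 H (z, t) := by
      funext t
      rw [hdx1]
    rw [this]
    exact slice_cont (DV_smooth hH 1) z
  have hBc : ∀ z, Continuous fun t => dy (fun z => χ z t) z := by
    intro z
    have : (fun t => dy (fun z => χ z t) z) = fun t => DV Complex.I H (z, t) := by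
      funext t
      rw [hdy1]
    rw [this]
    exact slice_cont (DV_smooth hH Complex.I) z
  have hLc : ∀ z, Continuous fun t => lap (fun z => χ z t) z := by
    intro z
    have : (fun t => lap (fun z => χ z t) z) = fun t => DV 1 (DV 1 H) (z, t) +
        DV Complex.I (DV Complex.I H) (z, t) := by
      funext t
      unfold lap
      rw [hdx2, hdy2]
    rw [this]
    exact (slice_cont (DV_smooth (DV_smooth hH 1) 1) z).add
      (slice_cont (DV_smooth (DV_smooth hH Complex.I) Complex.I) z)
  -- the weight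
  have hwc : ∀ z, Continuous fun t => Real.exp (q * χ z t) := fun z =>
    Real.continuous_exp.comp (continuous_const.mul (hchi z))
  have hw0 : ∀ z, ∀ t, 0 ≤ Real.exp (q * χ z t) := fun z t => (Real.exp_pos _).le
  have hwp : ∀ z, 0 < tI (fun t => Real.exp (q * χ z t)) := fun z =>
    tI_exp_pos (continuous_const.mul (hchi z))
  -- derivatives of the sums
  have e1 : ∀ v z, D v (fun z => φ z + α * X z) z = D v φ z + α * D v X z := fun v z => by
    rw [D_lin hy.hφ hsm]
  have e2 : ∀ v, D v (fun z => ∑ j, (f j z + β j * X z)) =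
      fun z => ∑ j, (D v (f j) z + β j * D v X z) := fun v => by
    rw [D_sum (g := fun j z => f j z + β j * X z)
      fun j => (hy.hf j).add (contDiff_const.mul hsm)]
    funext z
    refine Finset.sum_congr rfl fun j _ => ?_
    rw [D_lin (hy.hf j) hsm]
  have e3 : ∀ v z, D v (D v (fun z => φ z + α * X z)) z =
      D v (D v φ) z + α * D v (D v X) z := fun v z => by
    rw [D_lin hy.hφ hsm, D_lin (D_smooth hy.hφ v) (D_smooth hsm v)]
  have e4 : ∀ v z, D v (D v (fun z => ∑ j, (f j z + β j * X z))) z =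
      ∑ j, (D v (D v (f j)) z + β j * D v (D v X) z) := fun v z => by
    rw [e2, D_sum (g := fun j z => D v (f j) z + β j * D v X z)
      fun j => (D_smooth (hy.hf j) v).add (contDiff_const.mul (D_smooth hsm v))]
    refine Finset.sum_congr rfl fun j _ => ?_
    rw [D_lin (D_smooth (hy.hf j) v) (D_smooth hsm v)]
  set b : ℝ := ∑ j, β j with hb
  refine ⟨?_, ?_⟩
  · intro z hz
    set w : (Fin m → ℝ) → ℝ := fun t => Real.exp (q * χ z t) with hw
    -- abbreviations
    set S1 : ℝ := ∑ j, dx (f j) z with hS1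
    set S2 : ℝ := ∑ j, dy (f j) z with hS2
    set Q1 : ℝ := ∑ j, dx (f j) z ^ 2 with hQ1
    set Q2 : ℝ := ∑ j, dy (f j) z ^ 2 with hQ2
    set R1 : ℝ := ∑ j, β j * dx (f j) z with hR1
    set R2 : ℝ := ∑ j, β j * dy (f j) z with hR2
    set bb : ℝ := ∑ j, β j ^ 2 with hbb
    set LF : ℝ := ∑ j, lap (f j) z with hLF
    let P : Fin m → (Fin m → ℝ) → ℝ := fun i t => Real.exp ((2 * α - 2 * β i) * χ z t) *
      (2 * kap α β i * pd i (pd i (χ z)) t + lam α β i * pd i (χ z) t ^ 2)
    have hPc : ∀ i, Continuous (P i) := fun i =>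
      (Real.continuous_exp.comp (continuous_const.mul (hchi z))).mul
        ((continuous_const.mul (pd_smooth (pd_smooth (hchis z) i) i).continuous).add
          (continuous_const.mul ((pd_smooth (hchis z) i).continuous.pow 2)))
    -- the scalar curvature
    have hscal : ∀ t, sc φ f χ α β z t = (-2 * lap φ z - 2 * LF - S1 ^ 2 - S2 ^ 2 - Q1 - Q2) +
        ((-2 * (α + b)) * lap (fun z => χ z t) z + ((-(2 * S1 * b + 2 * R1)) *
          dx (fun z => χ z t) z + ((-(2 * S2 * b + 2 * R2)) * dy (fun z => χ z t) z +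
          ((-(b ^ 2 + bb)) * grad2 (fun z => χ z t) z +
          ∑ i, (-Real.exp (2 * φ z - 2 * f i z)) * P i t)))) := by
      intro t
      unfold sc grad2
      have k1 := sumlin (fun j => dx (f j) z) β (dx (fun z => χ z t) z)
      have k2 := sumlin (fun j => dy (f j) z) β (dy (fun z => χ z t) z)
      have k3 := sumsq (fun j => dx (f j) z) β (dx (fun z => χ z t) z)
      have k4 := sumsq (fun j => dy (f j) z) β (dy (fun z => χ z t) z)
      have k5 : ∑ i, Real.exp (2 * φ z + 2 * α * χ z t - 2 * f i z - 2 * β i * χ z t) *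
          (2 * kap α β i * pd i (pd i (χ z)) t + lam α β i * pd i (χ z) t ^ 2) =
          ∑ i, Real.exp (2 * φ z - 2 * f i z) * P i t := by
        refine Finset.sum_congr rfl fun i _ => ?_
        have : 2 * φ z + 2 * α * χ z t - 2 * f i z - 2 * β i * χ z t =
            (2 * φ z - 2 * f i z) + (2 * α - 2 * β i) * χ z t := by ring
        rw [this, Real.exp_add, mul_assoc]
      rw [k1, k2, Finset.sum_add_distrib, k3, k4, k5]
      simp only [neg_mul, Finset.sum_neg_distrib]
      simp only [← hS1, ← hS2, ← hQ1, ← hQ2, ← hR1, ← hR2, ← hbb, ← hLF, ← hb]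
      ring
    -- means
    have hG : ∀ t, grad2 (fun z => χ z t) z = dx (fun z => χ z t) z ^ 2 +
        dy (fun z => χ z t) z ^ 2 := fun t => rfl
    have hGc : Continuous fun t => grad2 (fun z => χ z t) z :=
      ((hAc z).pow 2).add ((hBc z).pow 2)
    have hEA : Ev w (fun t => dx (fun z => χ z t) z) = dx X z := (hdx z).symm
    have hEB : Ev w (fun t => dy (fun z => χ z t) z) = dy X z := (hdy z).symm
    set EG : ℝ := Ev w (fun t => grad2 (fun z => χ z t) z) with hEG
    have hEL : Ev w (fun t => lap (fun z => χ z t) z) =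
        lap X z - q * (EG - (dx X z ^ 2 + dy X z ^ 2)) := by
      have := hlap z
      have h2 : mn q χ (fun z t => lap (fun z => χ z t) z) z =
        Ev w (fun t => lap (fun z => χ z t) z) := rfl
      have h3 : mn q χ (fun z t => grad2 (fun z => χ z t) z) z = EG := rfl
      have h4 : grad2 X z = dx X z ^ 2 + dy X z ^ 2 := rfl
      rw [h2, h3, h4] at this
      linarith
    have hV : dx X z ^ 2 + dy X z ^ 2 ≤ EG := by
      have h1 := Ev_var (hwc z) (hw0 z) (hwp z) (hAc z)
      have h2 := Ev_var (hwc z) (hw0 z) (hwp z) (hBc z)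
      have h3 : EG = Ev w (fun t => dx (fun z => χ z t) z ^ 2) +
          Ev w (fun t => dy (fun z => χ z t) z ^ 2) :=
        Ev_add (hwc z) ((hAc z).pow 2) ((hBc z).pow 2)
      rw [h3]
      rw [← hEA, ← hEB]
      exact add_le_add h1 h2
    have hEP : ∀ i, 0 ≤ Ev w (P i) := by
      intro i
      refine div_nonneg ?_ (hwp z).le
      set r : ℝ := q + (2 * α - 2 * β i) with hr
      have h1 : (fun t => w t * P i t) = fun t =>
          (2 * kap α β i) * (Real.exp (r * χ z t) * pd i (pd i (χ z)) t) +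
          lam α β i * (Real.exp (r * χ z t) * pd i (χ z) t ^ 2) := by
        funext t
        have h2 : Real.exp (r * χ z t) = Real.exp (q * χ z t) *
            Real.exp ((2 * α - 2 * β i) * χ z t) := by
          rw [← Real.exp_add, hr]
          congr 1
          ring
        simp only [P, hw]
        rw [h2]
        ring
      have hc1 : Continuous fun t => Real.exp (r * χ z t) * pd i (pd i (χ z)) t :=
        (Real.continuous_exp.comp (continuous_const.mul (hchi z))).mul
          (pd_smooth (pd_smooth (hchis z) i) i).continuous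
      have hc2 : Continuous fun t => Real.exp (r * χ z t) * pd i (χ z) t ^ 2 :=
        (Real.continuous_exp.comp (continuous_const.mul (hchi z))).mul
          ((pd_smooth (hchis z) i).continuous.pow 2)
      rw [h1, tI_lin2 _ _ hc1 hc2,
        hF m (χ z) i r (hchis z) (fun t j => hy.hχ.per z t j)]
      have h3 : 0 ≤ tI (fun t => Real.exp (r * χ z t) * pd i (χ z) t ^ 2) :=
        tI_nonneg fun t => mul_nonneg (Real.exp_pos _).le (sq_nonneg _)
      have h4 : 0 ≤ lam α β i - 2 * kap α β i * r := by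
        have h5 := hqi i
        have h6 := hy.hκ i
        have h7 : β i ^ 2 ≤ ∑ j, β j ^ 2 :=
          Finset.single_le_sum (f := fun j => β j ^ 2) (fun j _ => sq_nonneg _)
            (Finset.mem_univ i)
        have h8 : 2 * r ≤ kap α β i - 2 * β i := by
          unfold kap
          rw [hr]
          linarith
        have h9 : kap α β i * (2 * r) ≤ kap α β i * (kap α β i - 2 * β i) :=
          mul_le_mul_of_nonneg_left h8 h6
        unfold lam
        nlinarith [sq_nonneg α]
      have h10 : 2 * kap α β i * (-r * tI (fun t => Real.exp (r * χ z t) * pd i (χ z) t ^ 2)) +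
          lam α β i * tI (fun t => Real.exp (r * χ z t) * pd i (χ z) t ^ 2) =
          (lam α β i - 2 * kap α β i * r) *
            tI (fun t => Real.exp (r * χ z t) * pd i (χ z) t ^ 2) := by ring
      rw [h10]
      exact mul_nonneg h4 h3
    -- the mean of the scalar curvature
    have hsum0 : 0 ≤ ∑ i, Real.exp (2 * φ z - 2 * f i z) * Ev w (P i) :=
      Finset.sum_nonneg fun i _ => mul_nonneg (Real.exp_pos _).le (hEP i)
    have hc5 : Continuous fun t => ∑ i, (-Real.exp (2 * φ z - 2 * f i z)) * P i t :=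
      continuous_finsetSum _ fun i _ => continuous_const.mul (hPc i)
    have hE : Ev w (fun t => sc φ f χ α β z t) =
        (-2 * lap φ z - 2 * LF - S1 ^ 2 - S2 ^ 2 - Q1 - Q2) +
        ((-2 * (α + b)) * (lap X z - q * (EG - (dx X z ^ 2 + dy X z ^ 2))) +
          ((-(2 * S1 * b + 2 * R1)) * dx X z + ((-(2 * S2 * b + 2 * R2)) * dy X z +
          ((-(b ^ 2 + bb)) * EG + -∑ i, Real.exp (2 * φ z - 2 * f i z) * Ev w (P i))))) := by
      have h1 : (fun t => sc φ f χ α β z t) = fun t => _ := funext hscal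
      rw [h1, Ev_lin5 (hwc z) (hwp z) _ _ _ _ _ (hLc z) (hAc z) (hBc z) hGc hc5, hEL, hEA, hEB,
        Ev_sum (hwc z) Finset.univ (f := fun i t => (-Real.exp (2 * φ z - 2 * f i z)) * P i t)
          (fun i => continuous_const.mul (hPc i))]
      have h2 : ∑ i, Ev w (fun t => (-Real.exp (2 * φ z - 2 * f i z)) * P i t) =
          -∑ i, Real.exp (2 * φ z - 2 * f i z) * Ev w (P i) := by
        rw [← Finset.sum_neg_distrib]
        refine Finset.sum_congr rfl fun i _ => ?_
        rw [Ev_mul]
        ring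
      rw [h2]
    -- the mean of the inequality
    have hscc : Continuous fun t => sc φ f χ α β z t := by
      have h1 : (fun t => sc φ f χ α β z t) = fun t => _ := funext hscal
      rw [h1]
      exact continuous_const.add ((continuous_const.mul (hLc z)).add
        ((continuous_const.mul (hAc z)).add ((continuous_const.mul (hBc z)).add
          ((continuous_const.mul hGc).add hc5))))
    have hexc : Continuous fun t => Real.exp (2 * α * χ z t) :=
      Real.continuous_exp.comp (continuous_const.mul (hchi z))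
    have hmean : 0 ≤ Ev w (fun t => sc φ f χ α β z t) + ((m : ℝ) + 2) * (m + 1) *
        Real.exp (2 * φ z) * Ev w (fun t => Real.exp (2 * α * χ z t)) := by
      rw [← Ev_mul, ← Ev_add (g := fun t => ((m : ℝ) + 2) * (m + 1) * Real.exp (2 * φ z) *
        Real.exp (2 * α * χ z t)) (hwc z) hscc (continuous_const.mul hexc)]
      refine Ev_nonneg (hw0 z) fun t => ?_
      have h1 := hy.hsc z hz t
      rw [Real.exp_add] at h1
      linarith
    have hEe : mn q χ (fun z t => Real.exp (2 * α * χ z t)) z =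
        Ev w (fun t => Real.exp (2 * α * χ z t)) := rfl
    rw [hE] at hmean
    rw [hEe]
    -- the left side
    have l1 : lap (fun z => φ z + α * X z) z = lap φ z + α * lap X z := by
      have h1 := e3 1 z
      have h2 := e3 Complex.I z
      change D 1 (D 1 (fun z => φ z + α * X z)) z +
        D Complex.I (D Complex.I (fun z => φ z + α * X z)) z =
        (D 1 (D 1 φ) z + D Complex.I (D Complex.I φ) z) +
          α * (D 1 (D 1 X) z + D Complex.I (D Complex.I X) z)
      rw [h1, h2]
      ring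
    have l2 : lap (fun z => ∑ j, (f j z + β j * X z)) z = LF + b * lap X z := by
      have h1 := e4 1 z
      have h2 := e4 Complex.I z
      have h3 : lap (fun z => ∑ j, (f j z + β j * X z)) z =
          D 1 (D 1 (fun z => ∑ j, (f j z + β j * X z))) z +
          D Complex.I (D Complex.I (fun z => ∑ j, (f j z + β j * X z))) z := rfl
      rw [h3, h1, h2, ← Finset.sum_add_distrib, hLF, hb, Finset.sum_mul,
        ← Finset.sum_add_distrib]
      refine Finset.sum_congr rfl fun j _ => ?_
      change _ = (D 1 (D 1 (f j)) z + D Complex.I (D Complex.I (f j)) z) +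
        β j * (D 1 (D 1 X) z + D Complex.I (D Complex.I X) z)
      ring
    have l3 : grad2 (fun z => ∑ j, (f j z + β j * X z)) z =
        (S1 + b * dx X z) ^ 2 + (S2 + b * dy X z) ^ 2 := by
      have h1 := congrFun (e2 1) z
      have h2 := congrFun (e2 Complex.I) z
      have h3 : grad2 (fun z => ∑ j, (f j z + β j * X z)) z =
          D 1 (fun z => ∑ j, (f j z + β j * X z)) z ^ 2 +
          D Complex.I (fun z => ∑ j, (f j z + β j * X z)) z ^ 2 := rfl
      rw [h3, h1, h2, sumlin, sumlin]
      rfl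
    have hmpos : (0 : ℝ) < m := by
      have := hy.hm
      exact_mod_cast this
    have c1 : (S1 + b * dx X z) ^ 2 ≤ m * (Q1 + 2 * R1 * dx X z + bb * dx X z ^ 2) := by
      have h1 := sq_sum_le_card_mul_sum_sq (s := (Finset.univ : Finset (Fin m)))
        (f := fun j => dx (f j) z + β j * dx X z)
      rw [sumlin, sumsq] at h1
      simpa using h1
    have c2 : (S2 + b * dy X z) ^ 2 ≤ m * (Q2 + 2 * R2 * dy X z + bb * dy X z ^ 2) := by
      have h1 := sq_sum_le_card_mul_sum_sq (s := (Finset.univ : Finset (Fin m)))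
        (f := fun j => dy (f j) z + β j * dy X z)
      rw [sumlin, sumsq] at h1
      simpa using h1
    rw [l1, l2, l3]
    have c3 : ((m : ℝ) + 1) / (2 * m) * ((S1 + b * dx X z) ^ 2 + (S2 + b * dy X z) ^ 2) ≤
        1 / 2 * ((S1 + b * dx X z) ^ 2 + (S2 + b * dy X z) ^ 2) +
        1 / 2 * ((Q1 + 2 * R1 * dx X z + bb * dx X z ^ 2) +
          (Q2 + 2 * R2 * dy X z + bb * dy X z ^ 2)) := by
      have h1 : ((m : ℝ) + 1) / (2 * m) * ((S1 + b * dx X z) ^ 2 + (S2 + b * dy X z) ^ 2) =
          1 / 2 * ((S1 + b * dx X z) ^ 2 + (S2 + b * dy X z) ^ 2) +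
          1 / 2 * (((S1 + b * dx X z) ^ 2 + (S2 + b * dy X z) ^ 2) / m) := by
        field_simp
      rw [h1]
      have h2 : ((S1 + b * dx X z) ^ 2 + (S2 + b * dy X z) ^ 2) / m ≤
          (Q1 + 2 * R1 * dx X z + bb * dx X z ^ 2) + (Q2 + 2 * R2 * dy X z + bb * dy X z ^ 2) := by
        rw [div_le_iff₀ hmpos]
        linarith
      linarith
    have c4 : 0 ≤ (α + b) * (-q) * (EG - (dx X z ^ 2 + dy X z ^ 2)) :=
      mul_nonneg (mul_nonneg hy.hαβ (by linarith)) (by linarith)
    have c5 : 0 ≤ (b ^ 2 + bb) * (EG - (dx X z ^ 2 + dy X z ^ 2)) :=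
      mul_nonneg (add_nonneg (sq_nonneg _) (Finset.sum_nonneg fun j _ => sq_nonneg _))
        (by linarith)
    nlinarith [c3, c4, c5, hmean, hsum0]
  · intro z hz
    set w : (Fin m → ℝ) → ℝ := fun t => Real.exp (q * χ z t) with hw
    have hEA : Ev w (fun t => dx (fun z => χ z t) z) = dx X z := (hdx z).symm
    have hEB : Ev w (fun t => dy (fun z => χ z t) z) = dy X z := (hdy z).symm
    have hexc : Continuous fun t => Real.exp (α * χ z t) :=
      Real.continuous_exp.comp (continuous_const.mul (hchi z))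
    have hradc : Continuous fun t => rad (fun z => χ z t) z :=
      (continuous_const.mul (hAc z)).add (continuous_const.mul (hBc z))
    have hErad : Ev w (fun t => rad (fun z => χ z t) z) = rad X z := by
      have h1 : (fun t => rad (fun z => χ z t) z) = fun t => z.re * dx (fun z => χ z t) z +
          z.im * dy (fun z => χ z t) z := rfl
      rw [h1, Ev_add (f := fun t => z.re * dx (fun z => χ z t) z)
        (g := fun t => z.im * dy (fun z => χ z t) z) (hwc z) (continuous_const.mul (hAc z))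
        (continuous_const.mul (hBc z)), Ev_mul, Ev_mul, hEA, hEB]
      rfl
    have hmean : 0 ≤ (1 + rad φ z + ∑ j, rad (f j) z) + ((α + b) * rad X z +
        (-(M * Real.exp (φ z))) * Ev w (fun t => Real.exp (α * χ z t))) := by
      rw [← hErad, ← Ev_lin2 (hwc z) (hwp z) _ _ _ hradc hexc]
      refine Ev_nonneg (hw0 z) fun t => ?_
      have h2 := hy.hbd z hz t
      rw [Real.exp_add] at h2
      linarith
    have hEe : mn q χ (fun z t => Real.exp (α * χ z t)) z =
        Ev w (fun t => Real.exp (α * χ z t)) := rfl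
    rw [hEe]
    have l1 : rad (fun z => φ z + α * X z) z = rad φ z + α * rad X z := by
      have h1 := e1 1 z
      have h2 := e1 Complex.I z
      change z.re * D 1 (fun z => φ z + α * X z) z + z.im * D Complex.I (fun z => φ z + α * X z) z =
        (z.re * D 1 φ z + z.im * D Complex.I φ z) + α * (z.re * D 1 X z + z.im * D Complex.I X z)
      rw [h1, h2]
      ring
    have l2 : rad (fun z => ∑ j, (f j z + β j * X z)) z = ∑ j, rad (f j) z + b * rad X z := by
      have h1 := congrFun (e2 1) z
      have h2 := congrFun (e2 Complex.I) z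
      have h3 : rad (fun z => ∑ j, (f j z + β j * X z)) z =
          z.re * D 1 (fun z => ∑ j, (f j z + β j * X z)) z +
          z.im * D Complex.I (fun z => ∑ j, (f j z + β j * X z)) z := rfl
      rw [h3, h1, h2, Finset.mul_sum, Finset.mul_sum, ← Finset.sum_add_distrib, hb,
        Finset.sum_mul, ← Finset.sum_add_distrib]
      refine Finset.sum_congr rfl fun j _ => ?_
      change _ = (z.re * D 1 (f j) z + z.im * D Complex.I (f j) z) +
        β j * (z.re * D 1 X z + z.im * D Complex.I X z)
      ring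
    rw [l1, l2]
    linarith

end Pool.Agent.BCS.H21
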