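import Pool.Agent.BCS.Stmts2
import Pool.Agent.Helper21_BCS.AVI

/-!
# Squad BCS, row AVB: averages over the torus, arbitrary families of fibre metrics
-/

set_option autoImplicit false

open scoped ContDiff Topology
open Set MeasureTheory
open Pool.Agent.SecondKind (pd Coord)

namespace Pool.Agent.BCS.H21

variable {m : ℕ}

theorem smp_cont {χ : ℂ → (Fin m → ℝ) → ℝ} (hχ : SmP χ) (z : ℂ) : Continuous (χ z) :=
  slice_cont (H := fun p => χ p.1 p.2) hχ.smooth z

theorem smp_d1 {χ : ℂ → (Fin m → ℝ) → ℝ} (hχ : SmP χ) (v z : ℂ) (t : Fin m → ℝ) :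
    fderiv ℝ (fun z => χ z t) z v = DV v (fun p : ℂ × (Fin m → ℝ) => χ p.1 p.2) (z, t) :=
  fd_slice (H := fun p => χ p.1 p.2) hχ.smooth v z t

theorem smp_dx {χ : ℂ → (Fin m → ℝ) → ℝ} (hχ : SmP χ) (z : ℂ) :
    Continuous fun t => dx (fun z => χ z t) z := by
  have : (fun t => dx (fun z => χ z t) z) =
      fun t => DV 1 (fun p : ℂ × (Fin m → ℝ) => χ p.1 p.2) (z, t) := by
    funext t
    exact smp_d1 hχ 1 z t
  rw [this]
  exact slice_cont (DV_smooth hχ.smooth 1) z

theorem smp_dy {χ : ℂ → (Fin m → ℝ) → ℝ} (hχ : SmP χ) (z : ℂ) :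
    Continuous fun t => dy (fun z => χ z t) z := by
  have : (fun t => dy (fun z => χ z t) z) =
      fun t => DV Complex.I (fun p : ℂ × (Fin m → ℝ) => χ p.1 p.2) (z, t) := by
    funext t
    exact smp_d1 hχ Complex.I z t
  rw [this]
  exact slice_cont (DV_smooth hχ.smooth Complex.I) z

theorem smp_lap {χ : ℂ → (Fin m → ℝ) → ℝ} (hχ : SmP χ) (z : ℂ) :
    Continuous fun t => lap (fun z => χ z t) z := by
  have : (fun t => lap (fun z => χ z t) z) = fun t =>
      DV 1 (DV 1 (fun p : ℂ × (Fin m → ℝ) => χ p.1 p.2)) (z, t) +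
      DV Complex.I (DV Complex.I (fun p : ℂ × (Fin m → ℝ) => χ p.1 p.2)) (z, t) := by
    funext t
    unfold lap
    have e1 : (dx fun z => χ z t) =
        fun z => DV 1 (fun p : ℂ × (Fin m → ℝ) => χ p.1 p.2) (z, t) := by
      funext z
      exact smp_d1 hχ 1 z t
    have e2 : (dy fun z => χ z t) =
        fun z => DV Complex.I (fun p : ℂ × (Fin m → ℝ) => χ p.1 p.2) (z, t) := by
      funext z
      exact smp_d1 hχ Complex.I z t
    rw [e1, e2]
    unfold dx dy
    rw [fd_slice (DV_smooth hχ.smooth 1) 1 z t,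
      fd_slice (DV_smooth hχ.smooth Complex.I) Complex.I z t]
  rw [this]
  exact (slice_cont (DV_smooth (DV_smooth hχ.smooth 1) 1) z).add
    (slice_cont (DV_smooth (DV_smooth hχ.smooth Complex.I) Complex.I) z)

theorem avb (hA : AvdStmt) (hG : GsmStmt) (hC : CnsStmt) (hT : TrjStmt) : AvbStmt := by
  intro m M q φ h hy
  have hχ : SmP (lvol h) := (hG m h hy.hh).2
  obtain ⟨hsm, hdx, hdy, hlap⟩ := hA m (lvol h) q hχ hy.hq
  set X := lm q (lvol h) with hX
  have hmpos : (0 : ℝ) < m := by
    have := hy.hm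
    exact_mod_cast this
  have hwc : ∀ z, Continuous fun t => Real.exp (q * lvol h z t) := fun z =>
    Real.continuous_exp.comp (continuous_const.mul (smp_cont hχ z))
  have hw0 : ∀ z, ∀ t, 0 ≤ Real.exp (q * lvol h z t) := fun z t => (Real.exp_pos _).le
  have hwp : ∀ z, 0 < tI (fun t => Real.exp (q * lvol h z t)) := fun z =>
    tI_exp_pos (continuous_const.mul (smp_cont hχ z))
  have hn : (m : ℝ) + 2 - 1 = m + 1 := by ring
  refine ⟨by linarith, by rw [hn]; exact hy.hM, hy.hφ.of_le (by norm_cast),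
    hsm.of_le (by norm_cast), ?_, ?_⟩
  · intro z hz
    set w : (Fin m → ℝ) → ℝ := fun t => Real.exp (q * lvol h z t) with hw
    have hGc : Continuous fun t => grad2 (fun z => lvol h z t) z :=
      ((smp_dx hχ z).pow 2).add ((smp_dy hχ z).pow 2)
    have hEA : Ev w (fun t => dx (fun z => lvol h z t) z) = dx X z := (hdx z).symm
    have hEB : Ev w (fun t => dy (fun z => lvol h z t) z) = dy X z := (hdy z).symm
    set EG : ℝ := Ev w (fun t => grad2 (fun z => lvol h z t) z) with hEG
    have hEL : Ev w (fun t => lap (fun z => lvol h z t) z) =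
        lap X z - q * (EG - grad2 X z) := by
      have := hlap z
      have h2 : mn q (lvol h) (fun z t => lap (fun z => lvol h z t) z) z =
        Ev w (fun t => lap (fun z => lvol h z t) z) := rfl
      have h3 : mn q (lvol h) (fun z t => grad2 (fun z => lvol h z t) z) z = EG := rfl
      rw [h2, h3] at this
      linarith
    have hV : grad2 X z ≤ EG := by
      have h1 := Ev_var (hwc z) (hw0 z) (hwp z) (smp_dx hχ z)
      have h2 := Ev_var (hwc z) (hw0 z) (hwp z) (smp_dy hχ z)
      have h3 : EG = Ev w (fun t => dx (fun z => lvol h z t) z ^ 2) +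
          Ev w (fun t => dy (fun z => lvol h z t) z ^ 2) :=
        Ev_add (hwc z) ((smp_dx hχ z).pow 2) ((smp_dy hχ z).pow 2)
      rw [h3]
      unfold grad2
      rw [← hEA, ← hEB]
      exact add_le_add h1 h2
    have hSc : Ev w (fun t => scal (h z) t) ≤ 0 :=
      div_nonpos_of_nonpos_of_nonneg (hy.hfib z hz) (hwp z).le
    have hScc : Continuous fun t => scal (h z) t := hC m h hy.hh z
    have h0c : Continuous fun _ : Fin m → ℝ => (0 : ℝ) := continuous_const
    have hmean : 0 ≤ Ev w (fun t => (((m : ℝ) + 2) * (m + 1) * Real.exp (2 * φ z) - 2 * lap φ z) +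
        ((-2) * lap (fun z => lvol h z t) z + ((-(1 + 1 / (m : ℝ))) *
          grad2 (fun z => lvol h z t) z + (Real.exp (2 * φ z) * scal (h z) t +
          (0 * 0 + 0))))) := by
      refine Ev_nonneg (hw0 z) fun t => ?_
      have h1 := hy.hsc z hz t
      have h2 := hT m h hy.hh z t
      set tr := trq (h z t) (fun i j => dx (fun z => h z t i j) z)
        + trq (h z t) (fun i j => dy (fun z => h z t i j) z) with htr
      set A := -2 * lap φ z - 2 * lap (fun z => lvol h z t) z - grad2 (fun z => lvol h z t) z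
        with hA
      have h3 : Real.exp (2 * φ z) * (-(((m : ℝ) + 2) * (m + 1))) ≤ Real.exp (2 * φ z) *
          (Real.exp (-(2 * φ z)) * (A - (1 / 4) * tr) + scal (h z) t) :=
        mul_le_mul_of_nonneg_left h1 (Real.exp_pos _).le
      have h4 : Real.exp (2 * φ z) * Real.exp (-(2 * φ z)) = 1 := by
        rw [← Real.exp_add]
        simp
      have h5 : Real.exp (2 * φ z) * (Real.exp (-(2 * φ z)) * (A - (1 / 4) * tr) + scal (h z) t) =
          (A - (1 / 4) * tr) + Real.exp (2 * φ z) * scal (h z) t := by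
        rw [mul_add, ← mul_assoc, h4, one_mul]
      rw [h5] at h3
      have h6 : 1 / (m : ℝ) * grad2 (fun z => lvol h z t) z ≤ (1 / 4) * tr := by
        rw [one_div, inv_mul_le_iff₀ hmpos]
        calc grad2 (fun z => lvol h z t) z ≤ m / 4 * tr := h2
          _ = m * (1 / 4 * tr) := by ring
      rw [hA] at h3
      nlinarith [h3, h6]
    rw [Ev_lin5 (hwc z) (hwp z) _ _ _ _ _ (smp_lap hχ z) hGc hScc h0c h0c, hEL] at hmean
    have h0 : Ev w (fun _ => (0 : ℝ)) = 0 := Ev_const (hwp z) 0
    rw [h0] at hmean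
    have h7 : Real.exp (2 * φ z) * Ev w (fun t => scal (h z) t) ≤ 0 :=
      mul_nonpos_of_nonneg_of_nonpos (Real.exp_pos _).le hSc
    have h8 : 2 * q ≤ 1 + 1 / (m : ℝ) := by
      have h9 := hy.hq2
      have h10 : 1 + 1 / (m : ℝ) = (m + 1) / m := by
        field_simp
      rw [h10, le_div_iff₀ hmpos]
      linarith
    have h11 : 0 ≤ (1 + 1 / (m : ℝ) - 2 * q) * (EG - grad2 X z) :=
      mul_nonneg (by linarith) (by linarith)
    have h12 : ((m : ℝ) + 2 - 1) / (2 * ((m : ℝ) + 2 - 2)) = (1 + 1 / (m : ℝ)) / 2 := by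
      have : (m : ℝ) + 2 - 2 = m := by ring
      rw [this, hn]
      field_simp
    rw [h12, hn]
    nlinarith [hmean, h7, h11]
  · intro z hz
    set w : (Fin m → ℝ) → ℝ := fun t => Real.exp (q * lvol h z t) with hw
    have hEA : Ev w (fun t => dx (fun z => lvol h z t) z) = dx X z := (hdx z).symm
    have hEB : Ev w (fun t => dy (fun z => lvol h z t) z) = dy X z := (hdy z).symm
    have hmean : 0 ≤ Ev w (fun t => (1 + rad φ z - M * Real.exp (φ z)) +
        (z.re * dx (fun z => lvol h z t) z + z.im * dy (fun z => lvol h z t) z)) := by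
      refine Ev_nonneg (hw0 z) fun t => ?_
      have h1 := hy.hbd z hz t
      have h3 : Real.exp (φ z) * M ≤ Real.exp (φ z) *
          (Real.exp (-φ z) * (1 + rad φ z + rad (fun z => lvol h z t) z)) :=
        mul_le_mul_of_nonneg_left h1 (Real.exp_pos _).le
      have h4 : Real.exp (φ z) * Real.exp (-φ z) = 1 := by
        rw [← Real.exp_add]
        simp
      rw [← mul_assoc, h4, one_mul] at h3
      have h5 : rad (fun z => lvol h z t) z = z.re * dx (fun z => lvol h z t) z +
          z.im * dy (fun z => lvol h z t) z := rfl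
      rw [h5] at h3
      linarith
    rw [Ev_lin2 (hwc z) (hwp z) _ _ _ (smp_dx hχ z) (smp_dy hχ z), hEA, hEB] at hmean
    have h5 : rad X z = z.re * dx X z + z.im * dy X z := rfl
    rw [h5]
    linarith

end Pool.Agent.BCS.H21
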